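import Pool.Agent.T2H43.LK.Main

/-!
# Curvature is not invariant under Gorenstein linkage

The ideals are the ones of the starting result on the complexity (`ComplexityDiffers`); here the
curvatures are compared, which is the second question.
-/

set_option autoImplicit false

namespace Pool.Agent.Results.MP_ae0d71_al.CurvatureDiffers

open Pool.Agent.T2H43.LK Filter Topology

/-- `((n+1)(n+3))^(1/n)` tends to `1`. -/
theorem tendsto_root_one :
    Tendsto (fun n : ℕ => ((((n + 1) * (n + 3) : ℕ) : ℝ)) ^ (1 / (n : ℝ))) atTop (𝓝 1) := by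
  -- squeeze between `1` and `(8 n^2)^(1/n)`
  have h1 : Tendsto (fun n : ℕ => (n : ℝ) ^ (1 / (n : ℝ))) atTop (𝓝 1) :=
    tendsto_rpow_div.comp tendsto_natCast_atTop_atTop
  have h8 : Tendsto (fun n : ℕ => (8 : ℝ) ^ (1 / (n : ℝ))) atTop (𝓝 1) := by
    have h0 : Tendsto (fun n : ℕ => (1 / (n : ℝ))) atTop (𝓝 0) :=
      tendsto_const_div_atTop_nhds_zero_nat 1
    have := (Real.continuousAt_const_rpow (a := (8 : ℝ)) (b := 0) (by norm_num)).tendsto.comp h0
    simpa [Function.comp_def] using this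
  have h2 : Tendsto (fun n : ℕ => (8 : ℝ) ^ (1 / (n : ℝ)) * ((n : ℝ) ^ (1 / (n : ℝ)) *
      (n : ℝ) ^ (1 / (n : ℝ)))) atTop (𝓝 1) := by
    simpa using h8.mul (h1.mul h1)
  refine tendsto_of_tendsto_of_tendsto_of_le_of_le' tendsto_const_nhds h2 ?_ ?_
  · filter_upwards [eventually_ge_atTop 1] with n hn
    refine Real.one_le_rpow ?_ (by positivity)
    have : (1 : ℕ) ≤ (n + 1) * (n + 3) := by nlinarith
    exact_mod_cast this
  · filter_upwards [eventually_ge_atTop 1] with n hn
    have hn' : (0 : ℝ) ≤ (n : ℝ) := by positivity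
    rw [← Real.mul_rpow hn' hn', ← Real.mul_rpow (by norm_num) (by positivity)]
    refine Real.rpow_le_rpow (by positivity) ?_ (by positivity)
    have : (n + 1) * (n + 3) ≤ 8 * (n * n) := by nlinarith
    exact_mod_cast this

/-- `(3/4 * 2^n)^(1/n)` tends to `2`. -/
theorem tendsto_root_two :
    Tendsto (fun n : ℕ => ((3 / 4 : ℝ) * 2 ^ n) ^ (1 / (n : ℝ))) atTop (𝓝 2) := by
  have h8 : Tendsto (fun n : ℕ => (3 / 4 : ℝ) ^ (1 / (n : ℝ))) atTop (𝓝 1) := by
    have h0 : Tendsto (fun n : ℕ => (1 / (n : ℝ))) atTop (𝓝 0) :=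
      tendsto_const_div_atTop_nhds_zero_nat 1
    have := (Real.continuousAt_const_rpow (a := (3 / 4 : ℝ)) (b := 0)
      (by norm_num)).tendsto.comp h0
    simpa [Function.comp_def] using this
  have h2 : Tendsto (fun n : ℕ => (3 / 4 : ℝ) ^ (1 / (n : ℝ)) * 2) atTop (𝓝 2) := by
    simpa using h8.mul_const 2
  refine h2.congr' ?_
  filter_upwards [eventually_ge_atTop 1] with n hn
  have hn0 : (n : ℝ) ≠ 0 := by positivity
  rw [Real.mul_rpow (by norm_num) (by positivity), ← Real.rpow_natCast, ← Real.rpow_mul (by norm_num),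
    mul_one_div_cancel hn0, Real.rpow_one]

theorem curv_J1 : curv (D2 RR) J1 ≤ 1 := by
  unfold curv
  have h : Tendsto (fun n : ℕ => ((((n + 1) * (n + 3) : ℕ) : ENNReal)) ^ (1 / (n : ℝ))) atTop
      (𝓝 1) := by
    have := (ENNReal.continuous_ofReal.tendsto 1).comp tendsto_root_one
    rw [ENNReal.ofReal_one] at this
    refine this.congr' ?_
    filter_upwards [eventually_ge_atTop 1] with n hn
    simp only [Function.comp]
    rw [← ENNReal.ofReal_rpow_of_nonneg (by positivity) (by positivity), ENNReal.ofReal_natCast]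
  rw [← h.limsup_eq]
  refine limsup_le_limsup ?_
  filter_upwards with n
  refine ENNReal.rpow_le_rpow ?_ (by positivity)
  have := ENat.toENNReal_le.mpr (betti_J1 n)
  simpa using this

theorem curv_II : 2 ≤ curv (D2 RR) II := by
  unfold curv
  have h : Tendsto (fun n : ℕ => ((3 / 4 : ENNReal) * 2 ^ n) ^ (1 / (n : ℝ))) atTop (𝓝 2) := by
    have := (ENNReal.continuous_ofReal.tendsto 2).comp tendsto_root_two
    rw [ENNReal.ofReal_ofNat] at this
    refine this.congr' ?_
    filter_upwards [eventually_ge_atTop 1] with n hn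
    simp only [Function.comp]
    rw [← ENNReal.ofReal_rpow_of_nonneg (by positivity) (by positivity),
      ENNReal.ofReal_mul (by norm_num), ENNReal.ofReal_div_of_pos (by norm_num),
      ENNReal.ofReal_pow (by norm_num)]
    norm_num
  rw [← h.limsup_eq]
  refine limsup_le_limsup ?_
  filter_upwards with n
  refine ENNReal.rpow_le_rpow ?_ (by positivity)
  have := ENat.toENNReal_le.mpr (betti_II n)
  have h3 : (3 : ENNReal) * 2 ^ n ≤ 4 * (betti (D2 RR) II n : ENNReal) := by
    simpa [Function.comp_def] using this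
  calc (3 / 4 : ENNReal) * 2 ^ n = (3 * 2 ^ n) / 4 := by
        rw [ENNReal.div_eq_inv_mul, ENNReal.div_eq_inv_mul, mul_assoc]
    _ ≤ (betti (D2 RR) II n : ENNReal) := by
        rw [mul_comm (4 : ENNReal)] at h3
        exact ENNReal.div_le_of_le_mul h3

/-- There are a Gorenstein local ring `S`, a Gorenstein perfect ideal `a` and proper ideals `I`, `J`
linked by `a`, with `S/I` and `S/J` Cohen-Macaulay, such that `curv_S(J) ≤ 1` and
`curv_S(I) ≥ 2`. -/
theorem result :
    ∃ (S : Type) (_ : CommRing S) (_ : IsLocalRing S) (a I J : Ideal S),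
      IsGorensteinLocal S ∧ IsGorensteinPerfect a ∧ I ≠ ⊤ ∧ J ≠ ⊤ ∧ IsLinked a I J ∧
      IsCMLocal (S ⧸ I) ∧ IsCMLocal (S ⧸ J) ∧ curv S J ≤ 1 ∧ 2 ≤ curv S I :=
  ⟨D2 RR, inferInstance, inferInstance, ⊥, II, J1, gor, gorPerf, II_ne_top, J1_ne_top,
    linked, cm_quot _ II_ne_top, cm_quot _ J1_ne_top, curv_J1, curv_II⟩

end Pool.Agent.Results.MP_ae0d71_al.CurvatureDiffers
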